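import Mathlib

set_option autoImplicit false
open Finset

namespace Pool.Agent.Results.MP_390e14_lc.NotVariety

universe u

/-- `(A, imp, comp)` embeds into the full implication semigroup over some transitive relation `T` -/
def Rep {A : Type} (imp comp : A → A → A) : Prop :=
  ∃ (X : Type u) (T : Set (X × X)), (∀ x y z, (x, y) ∈ T → (y, z) ∈ T → (x, z) ∈ T) ∧
    ∃ h : A → Set (X × X), Function.Injective h ∧ (∀ a, h a ⊆ T) ∧
      (∀ a b, h (imp a b) = (T \ h a) ∪ h b) ∧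
      ∀ a b, h (comp a b) = {p | ∃ y, (p.1, y) ∈ h a ∧ (y, p.2) ∈ h b}

/-- edge colours on nine points: `15` no edge, `14` the colour contained in every element -/
def col : Fin 9 → Fin 9 → ℕ := fun x y =>
  (![![15, 0, 4, 6, 8, 0, 9, 10, 10],
     ![15, 15, 2, 13, 7, 15, 15, 14, 14],
     ![15, 15, 15, 3, 5, 15, 15, 15, 15],
     ![15, 15, 15, 15, 1, 15, 15, 15, 15],
     ![15, 15, 15, 15, 15, 15, 15, 15, 15],
     ![15, 15, 15, 14, 12, 15, 14, 15, 15],
     ![15, 15, 15, 14, 12, 15, 14, 15, 15],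
     ![15, 15, 15, 15, 11, 15, 15, 14, 14],
     ![15, 15, 15, 15, 1, 15, 15, 15, 15]] : Fin 9 → Fin 9 → ℕ) x y

def has {n : ℕ} (X : Finset (Fin n)) (c : ℕ) : Prop := c = 14 ∨ ∃ d ∈ X, d.1 = c

instance {n : ℕ} (X : Finset (Fin n)) (c : ℕ) : Decidable (has X c) := by unfold has; infer_instance

def imp {n : ℕ} (X Y : Finset (Fin n)) : Finset (Fin n) := Xᶜ ∪ Y

def comp {n : ℕ} (X Y : Finset (Fin n)) : Finset (Fin n) :=
  univ.filter fun c => ∃ x y z, col x z = c.1 ∧ has X (col x y) ∧ has Y (col y z)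

def φ (X : Finset (Fin 14)) : Finset (Fin 13) := univ.filter fun c => c.castSucc ∈ X

lemma t1 : ∀ x y z, col x y < 15 → col y z < 15 → col x z < 15 := by decide +kernel
lemma t2 : ∀ x z, col x z = 14 → ∃ y, col x y = 14 ∧ col y z = 14 := by decide +kernel
lemma t3 : ∀ x z, col x z < 14 → ∀ x' z', col x z = col x' z' → ∀ y, col x y < 15 → col y z < 15 →
    ∃ y', col x' y' = col x y ∧ col y' z' = col y z := by decide +kernel
lemma t4 : ∀ c : Fin 14, ∃ x y, col x y = c := by decide +kernel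
lemma t5 : ∀ x y z, col x y < 15 → col y z < 15 → col x z < 13 → ∃ y',
    (col x y' = 14 ∨ (col x y' = col x y ∧ col x y < 13)) ∧
      (col y' z = 14 ∨ (col y' z = col y z ∧ col y z < 13)) := by decide +kernel

lemma has_lt {X : Finset (Fin 14)} {c : ℕ} (h : has X c) : c < 15 := by
  rcases h with h | ⟨d, -, h⟩ <;> omega

lemma repA : Rep.{0} (imp (n := 14)) comp := by
  refine ⟨Fin 9, {p | col p.1 p.2 < 15}, t1, fun X => {p | has X (col p.1 p.2)}, fun X Y h => ?_,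
    fun X p => has_lt, fun X Y => Set.ext fun p => ?_, fun X Y => Set.ext fun p => ⟨?_, ?_⟩⟩
  · ext c
    obtain ⟨x, y, e⟩ := t4 c
    have := Set.ext_iff.mp h (x, y)
    simpa [has, e, Fin.val_inj, c.2.ne] using this
  · simp only [Set.mem_union, Set.mem_sdiff, Set.mem_ofPred_eq, has, imp, mem_union, mem_compl]
    by_cases h : col p.1 p.2 < 14
    · obtain ⟨c, hc⟩ : ∃ c : Fin 14, col p.1 p.2 = c := ⟨⟨_, h⟩, rfl⟩
      have : c.1 < 15 := by omega
      simp [hc, Fin.val_inj, c.2.ne, this]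
    · have : ∀ c : Fin 14, c.1 ≠ col p.1 p.2 := fun c => by omega
      simp [this]
      omega
  · rintro (h | ⟨c, hc, e⟩)
    · obtain ⟨y, h1, h2⟩ := t2 _ _ h
      exact ⟨y, Or.inl h1, Or.inl h2⟩
    · obtain ⟨x, y, z, h1, h2, h3⟩ := (mem_filter.mp hc).2
      obtain ⟨y', h4, h5⟩ := t3 x z (by omega) _ _ (h1.trans e) y (has_lt h2) (has_lt h3)
      exact ⟨y', show has _ _ from h4 ▸ h2, show has _ _ from h5 ▸ h3⟩
  · rintro ⟨y, h1, h2⟩
    have : col p.1 p.2 < 15 := t1 _ _ _ (has_lt h1) (has_lt h2)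
    by_cases h : col p.1 p.2 = 14
    · exact Or.inl h
    · exact Or.inr ⟨⟨col p.1 p.2, by omega⟩, mem_filter.mpr ⟨mem_univ _, _, y, _, rfl, h1, h2⟩, rfl⟩

lemma has_φ {X : Finset (Fin 14)} {c : ℕ} : has (φ X) c ↔ c = 14 ∨ (has X c ∧ c < 13) := by
  simp only [has, φ, mem_filter, mem_univ, true_and]
  constructor
  · rintro (h | ⟨d, h, rfl⟩)
    exacts [Or.inl h, Or.inr ⟨Or.inr ⟨_, h, rfl⟩, d.2⟩]
  · rintro (h | ⟨h | ⟨d, h, rfl⟩, h'⟩)
    exacts [Or.inl h, Or.inl h, Or.inr ⟨⟨d, h'⟩, h, rfl⟩]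

lemma φ_comp (X Y : Finset (Fin 14)) : φ (comp X Y) = comp (φ X) (φ Y) := by
  ext c
  rw [φ]
  simp only [comp, mem_filter, mem_univ, true_and, has_φ, Fin.val_castSucc]
  constructor
  · rintro ⟨x, y, z, h1, h2, h3⟩
    obtain ⟨y', h4, h5⟩ := t5 x y z (has_lt h2) (has_lt h3) (by omega)
    exact ⟨x, y', z, h1, h4.imp_right fun h => by rw [h.1]; exact ⟨h2, h.2⟩,
      h5.imp_right fun h => by rw [h.1]; exact ⟨h3, h.2⟩⟩
  · rintro ⟨x, y, z, h1, h2, h3⟩
    exact ⟨x, y, z, h1, h2.elim Or.inl And.left, h3.elim Or.inl And.left⟩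

lemma not_repB : ¬Rep.{u} (imp (n := 13)) comp := by
  rintro ⟨X, T, -, h, hi, hT, h1, h2⟩
  have un : ∀ a b p, p ∈ h (a ∪ b) ↔ p ∈ h a ∨ p ∈ h b := by
    intro a b p
    have : a ∪ b = imp (imp a b) b := by ext; simp [imp]; tauto
    have := @hT a p
    have := @hT b p
    simp only [*, Set.mem_union, Set.mem_sdiff]
    tauto
  have bot : ∀ a p, p ∈ h ∅ → p ∈ h a := fun a p hp => by
    simpa using (un ∅ a p).mpr (Or.inl hp)
  have dis : ∀ a b p, Disjoint a b → p ∈ h a → p ∈ h b → p ∈ h ∅ := by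
    intro a b p hab ha hb
    have : b ∪ imp a ∅ = imp a ∅ := by
      ext c; have := fun h : c ∈ a => disjoint_left.mp hab h; simp [imp]; tauto
    have := (un b (imp a ∅) p).mpr (Or.inl hb)
    simpa [*] using this
  have cp : ∀ {a b} c {x y z}, (x, y) ∈ h a → (y, z) ∈ h b → comp a b = c → (x, z) ∈ h c := by
    rintro a b _ x y z ha hb rfl
    rw [h2]; exact ⟨y, ha, hb⟩
  have dp : ∀ a b {c x z}, (x, z) ∈ h c → comp a b = c → ∃ y, (x, y) ∈ h a ∧ (y, z) ∈ h b := by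
    rintro a b _ x z hc rfl
    rwa [h2] at hc
  obtain ⟨⟨u, v⟩, a1, a2⟩ : ∃ p, p ∈ h {8} ∧ p ∉ h ∅ := by
    by_contra! hc
    exact absurd (hi (Set.Subset.antisymm hc (bot {8}))) (by decide)
  have no : ∀ a, (u, v) ∈ h a → 8 ∈ a := fun a ha => by
    by_contra hc
    exact a2 (dis _ _ _ (by simpa using hc) a1 ha)
  obtain ⟨y, b1, b2⟩ := dp {4} {5} a1 (by decide +kernel)
  obtain ⟨y1, c1, c2⟩ := dp {0} {2} ((un {4} {6, 9, 10} _).mpr (Or.inl b1)) (by decide +kernel)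
  obtain ⟨y2, d1, d2⟩ := dp {3} {1} ((un {5} {7, 11, 12} _).mpr (Or.inl b2)) (by decide +kernel)
  obtain ⟨p, e1, e2⟩ := dp ∅ ∅ (cp ∅ c2 d1 (by decide +kernel)) (by decide +kernel)
  rcases (un _ _ _).mp (cp ({9} ∪ {6, 10}) c1 e1 (by decide +kernel)) with f1 | f1
  · rcases (un _ _ _).mp (cp ({11} ∪ {7, 12}) e2 d2 (by decide +kernel)) with f2 | f2
    · exact absurd (no _ (cp {6, 7, 9, 11} f1 f2 (by decide +kernel))) (by decide)
    · have := dis _ _ _ (by decide) (cp {12} e1 f2 (by decide +kernel)) (cp {7} c2 b2 (by decide +kernel))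
      exact absurd (no _ (cp {6, 9, 10} c1 this (by decide +kernel))) (by decide)
  · have := dis _ _ _ (by decide) (cp {10} f1 e2 (by decide +kernel)) (cp {6} b1 d1 (by decide +kernel))
    exact absurd (no _ (cp {7, 11, 12} this d2 (by decide +kernel))) (by decide)

theorem result : ∃ (A B : Type) (iA cA : A → A → A) (iB cB : B → B → B) (f : A → B),
    Function.Surjective f ∧ (∀ a b, f (iA a b) = iB (f a) (f b)) ∧ (∀ a b, f (cA a b) = cB (f a) (f b)) ∧
      Rep.{0} iA cA ∧ ¬Rep.{u} iB cB := by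
  refine ⟨_, _, imp, comp, imp, comp, φ, fun Y => ⟨Y.map Fin.castSuccEmb, ?_⟩, fun a b => ?_, φ_comp, repA,
    not_repB⟩
  · ext c; simp [φ]
  · ext c; simp [φ, imp]

end Pool.Agent.Results.MP_390e14_lc.NotVariety
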